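import Pool.Agent.TH610.CSP.Stm
import Pool.Agent.Helper111.EN.Basic

/-! # CSP-9 STEP: one step down the Johnson filtration -/

set_option autoImplicit false

open Matrix Pool.Agent.TH610.CSP

open scoped commutatorElement

namespace Pool.Agent.TH610.CSP.H985

/-- the automorphisms which act trivially on `F_n / K` -/
def Gm {n : ℕ} (K : Subgroup (FF n)) : Subgroup (MulAut (FF n)) where
  carrier := {ψ | Triv K ψ}
  one_mem' := by
    intro x
    simp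
  mul_mem' := by
    intro ψ φ hψ hφ x
    have h := K.mul_mem (hψ (φ x)) (hφ x)
    have e : ψ (φ x) * (φ x)⁻¹ * (φ x * x⁻¹) = (ψ * φ) x * x⁻¹ := by
      rw [MulAut.mul_apply]; group
    rwa [e] at h
  inv_mem' := by
    intro ψ hψ x
    have h := K.inv_mem (hψ (ψ⁻¹ x))
    have e : (ψ (ψ⁻¹ x) * (ψ⁻¹ x)⁻¹)⁻¹ = ψ⁻¹ x * x⁻¹ := by
      rw [MulAut.apply_inv_self]; group
    rwa [e] at h

theorem mem_Gm {n : ℕ} (K : Subgroup (FF n)) (ψ : MulAut (FF n)) : ψ ∈ Gm K ↔ Triv K ψ := Iff.rfl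

/-- the quotient `F_n / gam n (c + 1)` -/
abbrev QQ (n c : ℕ) : Type := FF n ⧸ gam n (c + 1)

theorem mk_central {n c : ℕ} {x : FF n} (hx : x ∈ gam n c) :
    (QuotientGroup.mk x : QQ n c) ∈ Subgroup.center (QQ n c) := by
  rw [Subgroup.mem_center_iff]
  intro g
  induction g using QuotientGroup.induction_on with
  | H y =>
    rw [← QuotientGroup.mk_mul, ← QuotientGroup.mk_mul, QuotientGroup.eq]
    have h : ⁅x⁻¹, y⁻¹⁆ ∈ gam n (c + 1) :=
      Subgroup.commutator_mem_commutator ((gam n c).inv_mem hx) (Subgroup.mem_top _)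
    have e : (y * x)⁻¹ * (x * y) = ⁅x⁻¹, y⁻¹⁆ := by
      rw [commutatorElement_def]; group
    rw [e]; exact h

instance nilp (n c : ℕ) : Group.IsNilpotent (QQ n c) := by
  rw [Subgroup.nilpotent_iff_lowerCentralSeries]
  refine ⟨c + 1, ?_⟩
  have h := Subgroup.map_lowerCentralSeries (⊤ : Subgroup (FF n))
    (QuotientGroup.mk' (gam n (c + 1))) (c + 1)
  rw [← MonoidHom.range_eq_map, QuotientGroup.range_mk'] at h
  rw [← h, ← le_bot_iff, Subgroup.map_le_iff_le_comap]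
  intro x hx
  rw [Subgroup.mem_comap, Subgroup.mem_bot, QuotientGroup.mk'_apply, QuotientGroup.eq_one_iff]
  exact hx

instance fgq (n c : ℕ) : Group.FG (QQ n c) := QuotientGroup.fg _

/-- the centre -/
abbrev DD (n c : ℕ) : Type := Subgroup.center (QQ n c)

instance commD (n c : ℕ) : CommGroup (DD n c) :=
  { (inferInstance : Group (Subgroup.center (QQ n c))) with
    mul_comm := by
      intro a b
      apply Subtype.ext
      exact Subgroup.mem_center_iff.1 b.2 a.1 }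

instance fgd (n c : ℕ) : Group.FG (DD n c) :=
  (Group.fg_iff_subgroup_fg _).2 (Pool.Agent.Helper111.EN.center_fg (K := QQ n c))

/-- `x ↦ ψ(x) x⁻¹` -/
def del {n c : ℕ} (ψ : MulAut (FF n)) (hψ : Triv (gam n c) ψ) : FF n →* DD n c where
  toFun x := ⟨QuotientGroup.mk (ψ x * x⁻¹), mk_central (hψ x)⟩
  map_one' := by
    apply Subtype.ext
    simp
    rfl
  map_mul' := by
    intro x y
    apply Subtype.ext
    show (QuotientGroup.mk (ψ (x * y) * (x * y)⁻¹) : QQ n c) =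
      QuotientGroup.mk (ψ x * x⁻¹) * QuotientGroup.mk (ψ y * y⁻¹)
    have hc := (Subgroup.mem_center_iff.1 (mk_central (c := c) (hψ y))) (QuotientGroup.mk x⁻¹)
    have e : ψ (x * y) * (x * y)⁻¹ = ψ x * ((ψ y * y⁻¹) * x⁻¹) := by
      rw [map_mul]; group
    rw [e, QuotientGroup.mk_mul, QuotientGroup.mk_mul _ (ψ y * y⁻¹) x⁻¹, ← hc, ← mul_assoc,
      ← QuotientGroup.mk_mul]

theorem del_apply {n c : ℕ} (ψ : MulAut (FF n)) (hψ : Triv (gam n c) ψ) (x : FF n) :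
    ((del ψ hψ x : DD n c) : QQ n c) = QuotientGroup.mk (ψ x * x⁻¹) := rfl

theorem del_gam {n c : ℕ} (hc : 1 ≤ c) (ψ : MulAut (FF n)) (hψ : Triv (gam n c) ψ) (x : FF n)
    (hx : x ∈ gam n c) : del ψ hψ x = 1 := by
  have h1 : gam n c ≤ gam n 1 := Subgroup.lowerCentralSeries_antitone _ hc
  have h2 : x ∈ commutator (FF n) := by
    rw [← Subgroup.top_lowerCentralSeries_one]
    exact h1 hx
  exact Abelianization.commutator_subset_ker (del ψ hψ) h2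

/-- the components of the Johnson homomorphism -/
def tauf {n c : ℕ} (ψ : Gm (gam n c)) (i : Fin n) : DD n c :=
  del ψ.1 ((mem_Gm _ _).1 ψ.2) (FreeGroup.of i)

theorem tauf_coe {n c : ℕ} (ψ : Gm (gam n c)) (i : Fin n) :
    ((tauf ψ i : DD n c) : QQ n c) = QuotientGroup.mk (ψ.1 (FreeGroup.of i) * (FreeGroup.of i)⁻¹) :=
  rfl

theorem tauf_mul {n c : ℕ} (hc : 1 ≤ c) (ψ φ : Gm (gam n c)) (i : Fin n) :
    tauf (ψ * φ) i = tauf ψ i * tauf φ i := by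
  have hψ : Triv (gam n c) ψ.1 := (mem_Gm _ _).1 ψ.2
  have hφ : Triv (gam n c) φ.1 := (mem_Gm _ _).1 φ.2
  have h1 : del ψ.1 hψ (φ.1 (FreeGroup.of i)) = del ψ.1 hψ (FreeGroup.of i) := by
    have e : φ.1 (FreeGroup.of i) = (φ.1 (FreeGroup.of i) * (FreeGroup.of i)⁻¹) *
      FreeGroup.of i := by group
    rw [e, map_mul, del_gam hc ψ.1 hψ _ (hφ (FreeGroup.of i)), one_mul]
  have h2 : tauf ψ i = del ψ.1 hψ (φ.1 (FreeGroup.of i)) := h1.symm
  have h3 : tauf φ i = del φ.1 hφ (FreeGroup.of i) := rfl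
  rw [h2, h3]
  apply Subtype.ext
  have e2 : (ψ * φ).1 (FreeGroup.of i) * (FreeGroup.of i)⁻¹ =
      (ψ.1 (φ.1 (FreeGroup.of i)) * (φ.1 (FreeGroup.of i))⁻¹) *
      (φ.1 (FreeGroup.of i) * (FreeGroup.of i)⁻¹) := by
    show ψ.1 (φ.1 (FreeGroup.of i)) * (FreeGroup.of i)⁻¹ = _
    group
  show (QuotientGroup.mk ((ψ * φ).1 (FreeGroup.of i) * (FreeGroup.of i)⁻¹) : QQ n c) =
    QuotientGroup.mk (ψ.1 (φ.1 (FreeGroup.of i)) * (φ.1 (FreeGroup.of i))⁻¹) *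
    QuotientGroup.mk (φ.1 (FreeGroup.of i) * (FreeGroup.of i)⁻¹)
  rw [e2, QuotientGroup.mk_mul]

/-- the Johnson homomorphism -/
def tau {n c : ℕ} (hc : 1 ≤ c) : Gm (gam n c) →* (Fin n → DD n c) :=
  MonoidHom.mk' (fun ψ => fun i => tauf ψ i) (by
    intro ψ φ
    funext i
    exact tauf_mul hc ψ φ i)

theorem tau_apply {n c : ℕ} (hc : 1 ≤ c) (ψ : Gm (gam n c)) (i : Fin n) :
    tau hc ψ i = tauf ψ i := rfl

theorem tau_ker {n c : ℕ} (hc : 1 ≤ c) (ψ : Gm (gam n c)) (h : tau hc ψ = 1) :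
    Triv (gam n (c + 1)) ψ.1 := by
  have hψ : Triv (gam n c) ψ.1 := (mem_Gm _ _).1 ψ.2
  have h1 : del ψ.1 hψ = 1 := by
    apply FreeGroup.ext_hom
    intro i
    exact congrFun h i
  intro x
  have h2 : ((del ψ.1 hψ x : DD n c) : QQ n c) = 1 := by
    rw [h1]; rfl
  rw [del_apply, QuotientGroup.eq_one_iff] at h2
  exact h2

theorem t_step (hr : StRes) (hs : StSep) : StStep := by
  intro n c hc N hN hNf hPC
  obtain ⟨K1, hK1c, hK1f, hK1⟩ := hPC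
  set A : Subgroup (Fin n → DD n c) := ((Gm K1).subgroupOf (Gm (gam n c))).map (tau hc) with hA
  set L : Subgroup (Fin n → DD n c) := ((Gm K1 ⊓ N).subgroupOf (Gm (gam n c))).map (tau hc) with hL
  have hLA : L ≤ A := by
    apply Subgroup.map_mono
    intro ψ hψ
    rw [Subgroup.mem_subgroupOf] at hψ ⊢
    exact hψ.1
  have he : 0 < N.index := Nat.pos_of_ne_zero hNf.index_ne_zero
  have hpow : ∀ a ∈ A, a ^ N.index ∈ L := by
    rintro a ⟨ψ, hψ, rfl⟩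
    refine ⟨ψ ^ N.index, ?_, map_pow _ _ _⟩
    have h1 : ψ.1 ∈ Gm K1 := hψ
    show (ψ ^ N.index).1 ∈ Gm K1 ⊓ N
    rw [Subgroup.coe_pow]
    exact ⟨(Gm K1).pow_mem h1 _, Subgroup.pow_index_mem N ψ.1⟩
  obtain ⟨M, hM, hM2⟩ := hs (Fin n) (DD n c) A L N.index he hLA hpow
  obtain ⟨K2, hK2c, hK2f, hK2⟩ := hr n c M hc hM
  refine ⟨K1 ⊓ K2, inferInstance, inferInstance, ?_⟩
  intro ψ hψ hψc
  have hψ1 : Triv K1 ψ := fun x => (hψ x).1
  have hψ2 : Triv K2 ψ := fun x => (hψ x).2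
  have h3 : ∀ i : Fin n, ∃ y ∈ gam n c,
      (ψ (FreeGroup.of i) * (FreeGroup.of i)⁻¹) * (y ^ M)⁻¹ ∈ gam n (c + 1) := fun i =>
    hK2 _ (hψ2 _) (hψc _)
  choose y hy hy2 using h3
  let Y : Fin n → DD n c := fun i => ⟨QuotientGroup.mk (y i), mk_central (hy i)⟩
  have hY : tau hc ⟨ψ, hψc⟩ = Y ^ M := by
    funext i
    apply Subtype.ext
    show (QuotientGroup.mk (ψ (FreeGroup.of i) * (FreeGroup.of i)⁻¹) : QQ n c) =
      ((Y i) ^ M : DD n c).1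
    have e : ((Y i) ^ M : DD n c).1 = (QuotientGroup.mk (y i) : QQ n c) ^ M := rfl
    rw [e, ← QuotientGroup.mk_pow, ← mul_inv_eq_one, ← QuotientGroup.mk_inv,
      ← QuotientGroup.mk_mul, QuotientGroup.eq_one_iff]
    exact hy2 i
  have hYA : Y ^ M ∈ A := by
    rw [← hY]
    exact ⟨⟨ψ, hψc⟩, hψ1, rfl⟩
  obtain ⟨φ, hφ, hφe⟩ := hM2 Y hYA
  have hφ1 : φ.1 ∈ Gm K1 ⊓ N := hφ
  have h4 : tau hc (φ⁻¹ * ⟨ψ, hψc⟩) = 1 := by
    rw [map_mul, map_inv, hφe, hY, inv_mul_cancel]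
  have h5 := tau_ker hc _ h4
  have h6 : Triv K1 (φ.1⁻¹ * ψ) := (Gm K1).mul_mem ((Gm K1).inv_mem hφ1.1) hψ1
  have h7 : φ.1⁻¹ * ψ ∈ N := hK1 _ h6 h5
  have h8 := N.mul_mem hφ1.2 h7
  rwa [mul_inv_cancel_left] at h8

end Pool.Agent.TH610.CSP.H985

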